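import Mathlib
import Pool.Agent.Helper61.AD2.Lower
import Pool.Agent.Helper61.AD.DeltaLe
import Pool.Agent.Helper61.AD.Deg
import Pool.Agent.Helper61.AD.Roots

/-!
Vojta's inequality for all points of degree `r` of the projective line, with the discriminant of the
form attached to the point in place of the discriminant of the field, up to a part of the closeness of
conjugates at places of `S` which is not forced by closeness to the divisor.

`k` is a number field, `S` a finite set of places containing the infinite ones, and `D` a reduced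
divisor of degree `q` of the projective line, defined over `k`: `D = {g = 0}` (if `q = deg g`) or
`D = {g = 0} + ∞` (if `q = deg g + 1`) with a squarefree polynomial `g` over `k`. Points are given by
their affine coordinate `x`, an element of the algebraic closure of `k`.
-/

namespace Pool.Agent.Results.MP_71c16a_nt.AllDegrees

open NumberField Polynomial IntermediateField Pool.Agent.Helper64.Vojta

universe u

section

variable (k : Type u) [Field k] [NumberField k] {L : Type u} [Field L] [NumberField L] [Algebra k L]

/-- Logarithmic height, relative to `k`, of the point of the projective line with affine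
coordinate `y`; `Height.logHeight` is Mathlib's height relative to `L`. -/
noncomputable def hgt (y : L) : ℝ := Height.logHeight ![y, 1] / Module.finrank k L

/-- Logarithmic discriminant `d_k(L)`. -/
noncomputable def dk (k L : Type u) [Field k] [NumberField k] [Field L] [NumberField L]
    [Algebra k L] : ℝ :=
  Real.log |(discr L : ℝ)| / Module.finrank k L - Real.log |(discr k : ℝ)|

variable {k}

/-- The Weil function, relative to `k`, at the place `ν` of `k` of the divisor `D = {g = 0}`
(if `q = deg g`) or `D = {g = 0} + ∞` (if `q = deg g + 1`) of the projective line. -/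
noncomputable def lamD (g : k[X]) (q : ℕ) (ν : Pl k) (y : L) : ℝ :=
  (∑ w ∈ above L ν, (q * Real.log (sn w ![y, 1]) - Real.log (nv w (aeval y g)))) / Module.finrank k L

/-- Left side of Vojta's inequality: `h_K(y) + ∑_{ν ∈ S} λ_D(y,ν)`, with `K = - 2 · point`. -/
noncomputable def lhs (g : k[X]) (q : ℕ) (S : Finset (Pl k)) (y : L) : ℝ :=
  -(2 * hgt k y) + ∑ ν ∈ S, lamD g q ν y

/-- The field generated by an algebraic number over a number field is a number field. -/
instance numberField_adjoin (x : AlgebraicClosure k) : NumberField k⟮x⟯ := by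
  have : FiniteDimensional k k⟮x⟯ := adjoin.finiteDimensional (Algebra.IsIntegral.isIntegral x)
  have h0 : CharZero k⟮x⟯ := charZero_of_injective_algebraMap (algebraMap k k⟮x⟯).injective
  have h1 : FiniteDimensional ℚ k⟮x⟯ := Module.Finite.trans k k⟮x⟯
  exact { to_charZero := h0, to_finiteDimensional := h1 }

/-- The degree of `x` over `k`. -/
noncomputable def dg (x : AlgebraicClosure k) : ℕ := (minpoly k x).natDegree

/-- The coefficients of the minimal polynomial of `x`, i.e. of the binary form of `x`. -/
noncomputable def coef (x : AlgebraicClosure k) : Fin (dg x + 1) → k := fun i => (minpoly k x).coeff i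

/-- For a finite place `v`: `ord_v(Δ) log N v`, where `Δ` is the discriminant (of degree `2 deg x - 2` in
the coefficients) of a multiple of the form of `x` with `v`-integral coefficients, one of them a
unit at `v` (`sn` is the maximum of the normalised absolute values of the coefficients). -/
noncomputable def ordDisc (v : FinitePlace k) (x : AlgebraicClosure k) : ℝ :=
  (2 * dg x - 2) * Real.log (sn (.inr v) (coef x)) - Real.log (nv (.inr v) (minpoly k x).discr)

/-- `log N v` -/
noncomputable def lnorm (v : FinitePlace k) : ℝ := Real.log (Ideal.absNorm v.maximalIdeal.asIdeal)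

/-- The logarithm of the norm of the part outside `S` of the discriminant of the form of `x`, divided
by the degree of `x`. -/
noncomputable def delta (S : Finset (Pl k)) (x : AlgebraicClosure k) : ℝ :=
  (∑ᶠ (v : FinitePlace k) (_ : Sum.inr v ∉ S), ordDisc v x) / dg x

/-- The order part: `2 ∑ ⌊ord_v(Δ)/2⌋ log N v` over the finite places `v` outside `S`, divided by the
degree of `x`. -/
noncomputable def orderPart (S : Finset (Pl k)) (x : AlgebraicClosure k) : ℝ :=
  (2 * ∑ᶠ (v : FinitePlace k) (_ : Sum.inr v ∉ S), (⌊ordDisc v x / (2 * lnorm v)⌋ : ℝ) * lnorm v) / dg x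

/-- The field generated over `k` by the conjugates of `x` and the points of `D`. -/
noncomputable def big (g : k[X]) (x : AlgebraicClosure k) : IntermediateField k (AlgebraicClosure k) :=
  adjoin k ((minpoly k x * g).rootSet (AlgebraicClosure k))

/-- It is a number field (`finrank_adjoin_roots`; for `g = 0` it is `k`). -/
instance numberField_big (g : k[X]) (x : AlgebraicClosure k) : NumberField (big g x) := by
  have hfd : FiniteDimensional k (big g x) := by
    by_cases hf : minpoly k x * g = 0
    · unfold big
      rw [hf, rootSet_zero, adjoin_empty]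
      infer_instance
    · exact (Pool.Agent.Helper61.AD.finrank_adjoin_roots _ _ hf le_rfl).1
  have h0 : CharZero (big g x) := charZero_of_injective_algebraMap (algebraMap k (big g x)).injective
  have h1 : FiniteDimensional ℚ (big g x) := Module.Finite.trans k (big g x)
  exact { to_charZero := h0, to_finiteDimensional := h1 }

/-- The conjugates of `x`. -/
noncomputable def conj (g : k[X]) (x : AlgebraicClosure k) : Finset (big g x) := by
  classical
  exact ((minpoly k x).aroots (big g x)).toFinset

/-- The points of `D` over an extension field; `none` is the point at infinity. -/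
noncomputable def pts (g : k[X]) (q : ℕ) (N : Type*) [Field N] [Algebra k N] : Finset (Option N) := by
  classical
  exact (g.aroots N).toFinset.image some ∪ if g.natDegree < q then {none} else ∅

/-- Minus the logarithm of the chordal distance, at the place `w`, of the affine point `a` and the
point `p` of the projective line (`none` is the point at infinity). -/
noncomputable def clo (w : Pl L) (a : L) (p : Option L) : ℝ :=
  match p with
  | some b => Real.log (sn w ![a, 1]) + Real.log (sn w ![b, 1]) - Real.log (nv w (a - b))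
  | none => Real.log (sn w ![a, 1])

/-- The sum over `ν ∈ S`, over the points `p` of `D` and over all pairs `a, b` of conjugates of `x` (also
`a = b`) of the minimum of the closenesses of `a` and `b` to `p` at `ν`, relative to `k` and divided
by the degree of `x`. -/
noncomputable def pairs (g : k[X]) (q : ℕ) (S : Finset (Pl k)) (x : AlgebraicClosure k) : ℝ :=
  (∑ ν ∈ S, ∑ w ∈ above (big g x) ν, ∑ p ∈ pts g q (big g x), ∑ a ∈ conj g x, ∑ b ∈ conj g x,
    min (clo w a p) (clo w b p)) / (Module.finrank k (big g x) * dg x)

open Classical in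
/-- The closeness of the pairs of different conjugates of `x` at the places of `S`, minus the part which is
forced by their closeness to the points of `D`, relative to `k` and divided by the degree of `x`. -/
noncomputable def excess (g : k[X]) (q : ℕ) (S : Finset (Pl k)) (x : AlgebraicClosure k) : ℝ :=
  (∑ ν ∈ S, ∑ w ∈ above (big g x) ν, ∑ a ∈ conj g x, ∑ b ∈ (conj g x).erase a,
    (clo w a (some b) - ∑ p ∈ pts g q (big g x), min (clo w a p) (clo w b p))) /
      (Module.finrank k (big g x) * dg x)

/-- The constant `1 / (2 r - 2)` for `r ≥ 2`; for `r = 1` (where the excess is an empty sum) it is `0`. -/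
noncomputable def gain (r : ℕ) : ℝ := if r ≤ 1 then 0 else 1 / (2 * r - 2)

end

/-- For all points `x` outside `D` of degree `r` over `k`, with `E_S(x)` = `excess` and `c_r = 1 / (2 r - 2)`
(`c_1 = 0`):
(0) `E_S(x)` is bounded below;
(1) Wirsing's inequality with multiplicities, `pairs(x) + c_r E_S(x) ≤ (2 r + ε) h(x) + C`;
(2) `h_K(x) + ∑_{ν ∈ S} λ_D(x,ν) ≤ ε h(x) + δ_S(x) + (1 - c_r) E_S(x) + C`, where `δ_S(x)` is the logarithm of the
norm of the part outside `S` of the discriminant of the primitive form of `x`, divided by `r`;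
(3) the same with `d_k(x) + (2/r) ∑_{v ∉ S} ⌊ord_v(Δ)/2⌋ log N v` in place of `δ_S(x)`. -/
theorem result (k : Type u) [Field k] [NumberField k] (g : k[X]) (hg : Squarefree g) (q : ℕ)
    (hq1 : g.natDegree ≤ q) (hq2 : q ≤ g.natDegree + 1)
    (S : Finset (Pl k)) (hS : ∀ v : InfinitePlace k, Sum.inl v ∈ S) (r : ℕ) (ε : ℝ) (hε : 0 < ε) :
    ∃ C : ℝ, ∀ x : AlgebraicClosure k, Module.finrank k k⟮x⟯ = r → aeval x g ≠ 0 →
      -C ≤ excess g q S x ∧
      pairs g q S x + gain r * excess g q S x ≤
        (2 * r + ε) * hgt k (AdjoinSimple.gen k x) + C ∧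
      lhs g q S (AdjoinSimple.gen k x) ≤
        ε * hgt k (AdjoinSimple.gen k x) + delta S x + (1 - gain r) * excess g q S x + C ∧
      lhs g q S (AdjoinSimple.gen k x) ≤
        ε * hgt k (AdjoinSimple.gen k x) + dk k k⟮x⟯ + orderPart S x +
          (1 - gain r) * excess g q S x + C := by
  classical
  rcases Nat.eq_zero_or_pos r with hr0 | hr
  · refine ⟨0, fun x hx _ => ?_⟩
    have hfd : FiniteDimensional k k⟮x⟯ := adjoin.finiteDimensional (Algebra.IsIntegral.isIntegral x)
    exact absurd (hx.trans hr0) (Module.finrank_pos (R := k) (M := k⟮x⟯)).ne'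
  obtain ⟨c1, hc⟩ := Pool.Agent.Helper61.AD2.vojta_ineq2 g hg q hq1 hq2 S hS r hr
    ((r + g.natDegree + 1) ^ (r + g.natDegree)) ε hε
  obtain ⟨c2, hc20, hc2⟩ := Pool.Agent.Helper61.AD2.exs_lower g hg.ne_zero q S r
    ((r + g.natDegree + 1) ^ (r + g.natDegree))
  set c : ℝ := |c1| + c2 with hcdef
  have hc1c : c1 ≤ c := by
    have := le_abs_self c1
    rw [hcdef]
    linarith
  have hgain : gain r = 1 / (2 * r - 2) := by
    unfold gain
    split_ifs with h
    · have h1 : r = 1 := by omega
      subst h1
      norm_num
    · rfl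
  refine ⟨|c|, fun x hx hgx => ?_⟩
  have hint : IsIntegral k x := Algebra.IsIntegral.isIntegral x
  have hdeg : (minpoly k x).natDegree = r := by rw [← hx, adjoin.finrank hint]
  have hP0 : minpoly k x ≠ 0 := minpoly.ne_zero hint
  have hf : minpoly k x * g ≠ 0 := mul_ne_zero hP0 hg.ne_zero
  have hfdeg : (minpoly k x * g).natDegree ≤ r + g.natDegree := by
    rw [natDegree_mul hP0 hg.ne_zero, hdeg]
  have hfin : Module.finrank k (big g x) ≤ (r + g.natDegree + 1) ^ (r + g.natDegree) :=
    (Pool.Agent.Helper61.AD.finrank_adjoin_roots _ _ hf hfdeg).2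
  have hroots : ∀ p : k[X], p ∣ minpoly k x * g → (p.map (algebraMap k (big g x))).Splits := by
    intro p hp
    have hp0 : p ≠ 0 := ne_zero_of_dvd_ne_zero hf hp
    refine IntermediateField.splits_of_splits (IsAlgClosed.splits _) fun z hz => ?_
    apply subset_adjoin
    rw [mem_rootSet] at hz ⊢
    obtain ⟨t, ht⟩ := hp
    exact ⟨hf, by rw [ht, map_mul, hz.2, zero_mul]⟩
  obtain ⟨x', hinj, hprod, himg⟩ := Pool.Agent.Helper61.AD.exists_enum (N := big g x) (minpoly k x)
    (minpoly.monic hint) (minpoly.irreducible hint) (hroots _ (dvd_mul_right _ _)) hdeg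
  have hgen : minpoly k (AdjoinSimple.gen k x) = minpoly k x := minpoly_gen k x
  have hgy : aeval (AdjoinSimple.gen k x) g ≠ 0 := by
    intro h
    apply hgx
    have h1 : aeval x g = algebraMap k⟮x⟯ (AlgebraicClosure k) (aeval (AdjoinSimple.gen k x) g) := by
      rw [← aeval_algebraMap_apply]
      rfl
    rw [h1, h, map_zero]
  obtain ⟨h1, h2⟩ := hc k⟮x⟯ (big g x) hx hfin (hroots _ (dvd_mul_left _ _)) (AdjoinSimple.gen k x)
    (by rw [hgen]; exact hdeg) hgy x' (by rw [hgen]; exact hprod)
  have hdisc : (minpoly k x).discr ≠ 0 :=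
    (Pool.Agent.Helper61.AD.discr_eq hr (minpoly k x) (minpoly.monic hint) (minpoly.irreducible hint)
      hdeg x' hprod).1
  have h3 := Pool.Agent.Helper61.AD.delta_le r hr (AdjoinSimple.gen k x) hx
    (by rw [hgen]; exact hdeg) (by rw [hgen]; exact hdisc) S
  rw [hgen] at h2 h3
  -- the sums over the conjugates
  have hconj : conj g x = Finset.univ.image x' := himg.symm
  have hsum : ∀ f : big g x → ℝ, ∑ a ∈ conj g x, f a = ∑ i, f (x' i) := by
    intro f
    rw [hconj, Finset.sum_image fun i _ j _ h => hinj h]
  have herase : ∀ (i : Fin r) (f : big g x → ℝ),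
      ∑ b ∈ (conj g x).erase (x' i), f b = ∑ j ∈ Finset.univ.erase i, f (x' j) := by
    intro i f
    have h4 : (conj g x).erase (x' i) = (Finset.univ.erase i).image x' := by
      rw [hconj, Finset.image_erase hinj]
    rw [h4, Finset.sum_image fun i _ j _ h => hinj h]
  have hr' : (0 : ℝ) < r := by exact_mod_cast hr
  have hN' : (0 : ℝ) < Module.finrank k (big g x) := by
    have : FiniteDimensional k (big g x) := FiniteDimensional.right ℚ k (big g x)
    exact_mod_cast Module.finrank_pos
  have hdg : dg x = r := hdeg
  have hpairs : pairs g q S x = ((∑ ν ∈ S, ∑ w ∈ above (big g x) ν,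
      ∑ p ∈ Pool.Agent.Helper61.AD.pts g q (big g x), ∑ i, ∑ j,
        min (Pool.Agent.Helper61.AD.cl w (x' i) p) (Pool.Agent.Helper61.AD.cl w (x' j) p)) /
          Module.finrank k (big g x)) / r := by
    unfold pairs
    simp only [hsum]
    rw [hdg, div_div]
    rfl
  have hexc : excess g q S x = (∑ ν ∈ S, ∑ w ∈ above (big g x) ν, ∑ i,
      ∑ j ∈ Finset.univ.erase i, (Pool.Agent.Helper61.AD.cl w (x' i) (some (x' j)) -
        ∑ p ∈ Pool.Agent.Helper61.AD.pts g q (big g x),
          min (Pool.Agent.Helper61.AD.cl w (x' i) p) (Pool.Agent.Helper61.AD.cl w (x' j) p))) /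
          (Module.finrank k (big g x) * r) := by
    unfold excess
    simp only [hsum, herase]
    rw [hdg]
    rfl
  have hord : ∀ v : FinitePlace k, (2 * (r : ℝ) - 2) * Real.log (Pool.Agent.V2.vn (.inr v)
      (Pool.Agent.Helper61.AD.cf r (minpoly k x))) - Real.log (nv (.inr v) (minpoly k x).discr) =
        ordDisc v x := by
    intro v
    unfold ordDisc coef
    rw [hdg]
    rfl
  simp_rw [hord] at h2 h3
  have hr1 : (1 : ℝ) ≤ r := by exact_mod_cast hr
  have hcle : c1 ≤ |c| := hc1c.trans (le_abs_self c)
  have hhgt : hgt k (AdjoinSimple.gen k x) = Height.logHeight ![AdjoinSimple.gen k x, 1] / r := by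
    unfold hgt; rw [hx]
  have hlhs : lhs g q S (AdjoinSimple.gen k x) ≤
      ε * hgt k (AdjoinSimple.gen k x) + delta S x + (1 - gain r) * excess g q S x + |c| := by
    have h5 : delta S x = (∑ᶠ (v : FinitePlace k) (_ : Sum.inr v ∉ S), ordDisc v x) / r := by
      unfold delta; rw [hdg]
    rw [hexc, h5, hgain]
    unfold lhs lamD hgt
    linarith
  have hdelta : delta S x ≤ dk k k⟮x⟯ + orderPart S x := by
    have h5 : delta S x = (∑ᶠ (v : FinitePlace k) (_ : Sum.inr v ∉ S), ordDisc v x) / r := by
      unfold delta; rw [hdg]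
    have h6 : dk k k⟮x⟯ = (Real.log |(discr k⟮x⟯ : ℝ)| - r * Real.log |(discr k : ℝ)|) / r := by
      unfold dk; rw [hx]; field_simp
    have h7 : orderPart S x = (2 * ∑ᶠ (v : FinitePlace k) (_ : Sum.inr v ∉ S),
        (⌊ordDisc v x / (2 * Real.log (Ideal.absNorm v.maximalIdeal.asIdeal))⌋ : ℝ) *
          Real.log (Ideal.absNorm v.maximalIdeal.asIdeal)) / r := by
      unfold orderPart lnorm; rw [hdg]
    rw [h5, h6, h7, ← add_div]
    exact div_le_div_of_nonneg_right h3 hr'.le
  refine ⟨?_, ?_, hlhs, by linarith⟩
  · -- the lower bound for the excess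
    have hnot : ∀ i, ∀ p ∈ Pool.Agent.Helper61.AD.pts g q (big g x), p ≠ some (x' i) := by
      refine Pool.Agent.Helper61.AD2.not_mem_pts g (minpoly.irreducible hint) (minpoly.monic hint)
        ?_ x' hprod q
      intro hdvd
      exact hgx ((minpoly.dvd_iff).1 hdvd)
    have h11 := hc2 (big g x) hfin (hroots _ (dvd_mul_left _ _)) x' hinj hnot
    rw [hexc]
    have h12 : -(Module.finrank k (big g x) * c2) / (Module.finrank k (big g x) * r : ℝ) ≤
        (∑ ν ∈ S, ∑ w ∈ above (big g x) ν, Pool.Agent.Helper61.AD2.exs
          (Pool.Agent.Helper61.AD.pts g q (big g x)) w x') / (Module.finrank k (big g x) * r) :=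
      div_le_div_of_nonneg_right h11 (mul_pos hN' hr').le
    refine le_trans ?_ h12
    have h13 : -(Module.finrank k (big g x) * c2) / (Module.finrank k (big g x) * r : ℝ) =
        -(c2 / r) := by
      field_simp
    rw [h13]
    have h14 : c2 / r ≤ |c| := by
      calc c2 / r ≤ c2 / 1 := div_le_div_of_nonneg_left hc20 one_pos hr1
        _ = c2 := div_one _
        _ ≤ c := by rw [hcdef]; linarith [abs_nonneg c1]
        _ ≤ |c| := le_abs_self c
    linarith
  have hexc2 : gain r * excess g q S x = ((∑ ν ∈ S, ∑ w ∈ above (big g x) ν, ∑ i,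
      ∑ j ∈ Finset.univ.erase i, (Pool.Agent.Helper61.AD.cl w (x' i) (some (x' j)) -
        ∑ p ∈ Pool.Agent.Helper61.AD.pts g q (big g x),
          min (Pool.Agent.Helper61.AD.cl w (x' i) p) (Pool.Agent.Helper61.AD.cl w (x' j) p))) /
          Module.finrank k (big g x) / (2 * r - 2)) / r := by
    rw [hexc, hgain, ← div_div]
    ring
  rw [hpairs, hexc2, hhgt, ← add_div]
  have h8 := div_le_div_of_nonneg_right h1 hr'.le
  refine h8.trans ?_
  have h9 : ((2 * (r : ℝ) + ε) * Height.logHeight ![AdjoinSimple.gen k x, 1] + c1) / r =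
      (2 * (r : ℝ) + ε) * (Height.logHeight ![AdjoinSimple.gen k x, 1] / r) + c1 / r := by
    rw [add_div, mul_div_assoc]
  rw [h9]
  have h10 : c1 / r ≤ |c| := by
    calc c1 / r ≤ |c| / r := div_le_div_of_nonneg_right hcle hr'.le
      _ ≤ |c| / 1 := div_le_div_of_nonneg_left (abs_nonneg c) one_pos hr1
      _ = |c| := div_one _
  linarith

end Pool.Agent.Results.MP_71c16a_nt.AllDegrees
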