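import Mathlib
import Pool.Agent.Helper61.DC.Main
import Pool.Agent.Helper61.DG.Main

/-!
# Exact dynamical Mordell-Lang for curves: generic maps, and all maps off a finite set at infinity

Let `K ⊂ ℂ` be a number field and let `Φ` be a polynomial self-map of `A^N` over `K`, given by
polynomials of degree at most `d ≥ 2` whose homogeneous parts of degree `d` have no common
nontrivial zero (so `Φ` extends to an endomorphism of `P^N` of degree `d`). Let `F` be the self-map
of `A^N` given by the forms of degree `d`; it induces the map of `Φ` on the hyperplane at infinity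
`H = P^(N-1)`. Let `Z ⊂ H` be the set of the points `z` of degree at most two over `K` which are
periodic for `F` and have multiplicity at least `d^k` for every period `k`: the multiplicity of the
solution `Y = z` of the system `F^k (Y) = F^k (z)`, the local degree of `F^k : H → H` at `z`.

The set `Z` is finite, and it is EMPTY for generic `Φ`: for all `N` and `d` there is a nonzero
polynomial `Ψ` with integral coefficients in the coefficients of the forms of degree `d` such that `Z`
is empty for all `K` and all `Φ` over `K` with `Ψ (Φ) ≠ 0`. For ALL points `α` of `A^N` over `K` and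
ALL closed sets `V` of `A^N` over `ℂ` of dimension at most one whose closure in `P^N` does not meet `Z`
the return set `{n | Φ^n (α) ∈ V}` is a finite union of arithmetic progressions.

All points of `Z` are in the ramification locus of an iterate of `F : H → H`; for `N = 2` they are the
totally ramified periodic points. There is no condition on the ramification of `Φ`.

Sketch of the proof. (1) Finiteness of `Z`: `h (F x) ≥ d h (x) - C [L : K]` with one `C` for all
extensions `L` of `K`, so the periodic points have bounded height, and there are finitely many points of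
bounded height and degree (`Helper61/DC/Ht`, `Fin`). (2) The set `V` can be replaced by the zero set of
all polynomials over `K` which vanish at the points of the orbit in `V`: its dimension is at most one
and its points at infinity are points at infinity of `V` (`Helper61/DC/Coord`, `Desc`). (3) The theorem
for `V` over `K` is proved in `Pool/Agent/Helper52/RP/` and `Pool/Agent/Helper26/RC/`: if the return
set is infinite, the closures of the backward translates of the returning sequence along a nonprincipal
ultrafilter are curves `C_l` with `Φ (C_(l+1)) ⊆ C_l`; by the subspace theorem the sequence tends at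
some place to points `q_l` at infinity with at most two conjugates over `K`, and by Northcott they are
periodic; the homogenised iterate has a superattracting fixed point at `q_0`; the colength of the
pullbacks of its ideal is small because the multiplicity is less than `d^k`, so Siegel's lemma in the
form of linear algebra and the product formula give a closed set of dimension one which contains all
`C_l` with `l` large; two of them are equal and `V` contains a periodic curve.

For generic `Φ` the set `Z` is empty: (4) Multiplicities are submultiplicative for compositions, and the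
multiplicity of `G` at `z` is less than `s` if and only if a minor of a matrix is not zero whose entries
are polynomials in `z` and in the coefficients of `G` (`Helper61/DG/Mult`, `Minor`). (5) Elimination:
if for one map the iterate `k_0` has multiplicity less than `d^(k_0)` at all `z ≠ 0`, then so it is off
a hypersurface in the space of the coefficients (`Helper61/DG/Elim`). (6) The example
`F_j = (x_1 - c x_(j+1))^d` for `j < N`, `F_N = x_1^d`, `(1 - c)^d = 1`, `c ≠ 0`: along an orbit the
number of zero coordinates, summed over time, is bounded, since the set of the values of the coordinates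
loses an element at each return, so the multiplicities of ALL iterates are bounded by one constant
(`Helper61/DG/Ex`).
-/

namespace Pool.Agent.Results.MP_295d38_ag.CurvesOffFiniteSet

open MvPolynomial
open scoped LinearAlgebra.Projectivization

section multiplicity

variable {F : Type} [Field F] {N : ℕ}

/-- The maximal ideal of the point `z` of `A^N`. -/
noncomputable def pointIdeal (z : Fin N → F) : Ideal (MvPolynomial (Fin N) F) :=
  RingHom.ker (eval z)

instance (z : Fin N → F) : (pointIdeal z).IsPrime := RingHom.ker_isPrime _

/-- The multiplicity of the solution `Y = z` of the system of equations `G i (Y) = G i (z)`: the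
dimension over `F` of the quotient of the local ring of `A^N` at `z` by the ideal generated by the
`G i (Y) - G i (z)`. -/
noncomputable def localMult (G : Fin N → MvPolynomial (Fin N) F) (z : Fin N → F) : Cardinal :=
  Module.rank F (Localization.AtPrime (pointIdeal z) ⧸
    (Ideal.span (Set.range fun i => G i - C (eval z (G i)))).map
      (algebraMap (MvPolynomial (Fin N) F) (Localization.AtPrime (pointIdeal z))))

end multiplicity

variable {K : Type} [Field K] {N : ℕ}

/-- The polynomial self-map of affine space with the coordinates `Φ i`. -/
noncomputable def polyMap (Φ : Fin N → MvPolynomial (Fin N) K) (x : Fin N → K) : Fin N → K :=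
  fun i => eval x (Φ i)

section extension

variable (L : Type) [Field L] [Algebra K L]

/-- The homogeneous part of degree `d` of `Φ i`, as a polynomial over the extension field `L`. -/
noncomputable def topForm (d : ℕ) (Φ : Fin N → MvPolynomial (Fin N) K) (i : Fin N) :
    MvPolynomial (Fin N) L :=
  homogeneousComponent d (MvPolynomial.map (algebraMap K L) (Φ i))

/-- The coordinate `i` of the `k`-th iterate of the self-map of `A^N` given by the forms of degree
`d`: a form of degree `d ^ k`. -/
noncomputable def topIter (d : ℕ) (Φ : Fin N → MvPolynomial (Fin N) K) (k : ℕ) (i : Fin N) :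
    MvPolynomial (Fin N) L :=
  (bind₁ (topForm L d Φ))^[k] (X i)

variable {L}

/-- `k > 0` is a period of the point of the hyperplane at infinity represented by `z`. -/
def IsPeriod (d : ℕ) (Φ : Fin N → MvPolynomial (Fin N) K) (k : ℕ) (z : Fin N → L) : Prop :=
  0 < k ∧ ∃ c : L, c ≠ 0 ∧ ∀ i, eval z (topIter L d Φ k i) = c * z i

end extension

section complex

variable [Algebra K ℂ]

/-- `Φ` has degree at most `d`, and the homogeneous parts of degree `d` of the `Φ i` have no common
nontrivial zero: `Φ` extends to an endomorphism of degree `d` of projective space. -/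
def RegularAtInfinity (d : ℕ) (Φ : Fin N → MvPolynomial (Fin N) K) : Prop :=
  (∀ i, (Φ i).totalDegree ≤ d) ∧
    ∀ z : Fin N → ℂ, (∀ i, aeval z (homogeneousComponent d (Φ i)) = 0) → z = 0

/-- The exceptional set `Z` in the complex hyperplane at infinity: the points represented by a vector
`z` over an extension `L` of `K` of degree at most two, embedded in `ℂ` by `j`, which are periodic and
whose multiplicity is at least `d ^ k` for every period `k`. -/
def exceptional (d : ℕ) (Φ : Fin N → MvPolynomial (Fin N) K) : Set (ℙ ℂ (Fin N → ℂ)) :=
  {p | ∃ (L : Type) (_ : Field L) (_ : Algebra K L) (j : L →ₐ[K] ℂ) (z : Fin N → L)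
    (h : (fun i => j (z i)) ≠ 0), FiniteDimensional K L ∧ Module.finrank K L ≤ 2 ∧
      p = Projectivization.mk ℂ (fun i => j (z i)) h ∧ (∃ k, IsPeriod d Φ k z) ∧
      ∀ k, IsPeriod d Φ k z → ((d ^ k : ℕ) : Cardinal) ≤ localMult (topIter L d Φ k) z}

/-- The set of return times of the orbit of `α`, a point over `K`, to the zero set in `A^N` over `ℂ` of
the ideal `I`. -/
def returnSet (Φ : Fin N → MvPolynomial (Fin N) K) (α : Fin N → K)
    (I : Ideal (MvPolynomial (Fin N) ℂ)) : Set ℕ :=
  {n | ∀ f ∈ I, eval (fun i => algebraMap K ℂ ((polyMap Φ)^[n] α i)) f = 0}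

end complex

/-- The zero set of `I` has dimension at most one: the coordinate rings of its irreducible closed
subsets have transcendence degree at most one over `ℂ`. -/
def DimLEOne (I : Ideal (MvPolynomial (Fin N) ℂ)) : Prop :=
  ∀ P : Ideal (MvPolynomial (Fin N) ℂ), P.IsPrime → I ≤ P →
    Algebra.trdeg ℂ (MvPolynomial (Fin N) ℂ ⧸ P) ≤ 1

/-- The point `p` of the hyperplane at infinity is in the closure of the zero set of `I` in projective
space: the forms of highest degree of all elements of `I` vanish at `p`. -/
def IsPointAtInfinity (I : Ideal (MvPolynomial (Fin N) ℂ)) (p : ℙ ℂ (Fin N → ℂ)) : Prop :=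
  ∀ f ∈ I, eval p.rep (homogeneousComponent f.totalDegree f) = 0

/-- The indices of the coefficients of the forms of degree `d`: `(i, s)` is the index of the
coefficient of the monomial with the exponents `s` in the coordinate `i`. -/
abbrev TopCoeff (N d : ℕ) : Type := Fin N × {s : Fin N →₀ ℕ // s.degree = d}

/-- The return set is a finite union of arithmetic progressions. -/
def IsFiniteUnion (R : Set ℕ) : Prop :=
  ∃ A : Finset (ℕ × ℕ), R = {n | ∃ p ∈ A, ∃ k : ℕ, n = p.1 + p.2 * k}

private theorem off [NumberField K] [Algebra K ℂ] {d : ℕ} (hd : 2 ≤ d)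
    (Φ : Fin N → MvPolynomial (Fin N) K) (hΦ : RegularAtInfinity d Φ) :
    (exceptional d Φ).Finite ∧
      ∀ (α : Fin N → K) (I : Ideal (MvPolynomial (Fin N) ℂ)), DimLEOne I →
        (∀ p ∈ exceptional d Φ, ¬ IsPointAtInfinity I p) → IsFiniteUnion (returnSet Φ α I) := by
  have hreg : Pool.Agent.Helper26.RC.Reg ℂ d Φ := ⟨hΦ.1, fun z hz => hΦ.2 z fun i => congrFun hz i⟩
  constructor
  · refine (Pool.Agent.Helper61.DC.finite_per hd hreg).subset ?_
    rintro p ⟨L, iF, iA, j, z, h, hL1, hL2, hp, ⟨k, hk, hk'⟩, -⟩
    exact ⟨L, iF, iA, j, z, h, hL1, hL2, hp, k, hk, hk'⟩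
  · intro α I hI hZ
    obtain ⟨A, hA⟩ := Pool.Agent.Helper61.DC.curves hd hreg α I hI (by
      intro L iF iA j z hL1 hL2 hz hinf hper
      obtain ⟨k0, hk0, h0⟩ := hper
      by_contra hcon
      have hne : (fun i => j (z i)) ≠ 0 := by
        intro h
        apply hz
        funext i
        exact (map_eq_zero j).1 (congrFun h i)
      refine hZ (Projectivization.mk ℂ _ hne) ⟨L, iF, iA, j, z, hne, hL1, hL2, rfl, ⟨k0, hk0, h0⟩, ?_⟩ ?_
      · intro k hk
        by_contra hlt
        exact hcon ⟨k, hk.1, hk.2, not_le.1 hlt⟩
      · intro f hf
        obtain ⟨a, ha⟩ := Projectivization.exists_smul_eq_mk_rep ℂ _ hne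
        rw [← ha]
        have h1 := Pool.Agent.Helper61.DC.eval_smul_hom
          (homogeneousComponent_isHomogeneous f.totalDegree f) (a : ℂ) (fun i => j (z i))
        rw [hinf f hf, mul_zero] at h1
        exact h1)
    refine ⟨A, ?_⟩
    have h : returnSet Φ α I = {n | ∀ f ∈ I, eval (fun i => algebraMap K ℂ
        (Pool.Agent.Helper26.RC.orb Φ α n i)) f = 0} := rfl
    rw [h, hA]
    ext n
    simp only [Set.mem_iUnion, Set.mem_ofPred_eq, exists_prop]

/-- For each `N` and `d` there is a nonzero polynomial `Ψ` over `ℤ` in the coefficients of the forms of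
degree `d` such that for all number fields `K` in `ℂ` and all `Φ` over `K` of degree at most `d`: if
`Ψ (Φ) ≠ 0` then `Φ` is regular at infinity and the exceptional set `Z` is empty; and if `Φ` is regular
at infinity then `Z` is finite, and for all `α` over `K` and all closed `V` over `ℂ` of dimension at
most one whose closure does not meet `Z` the return set is a finite union of arithmetic
progressions. -/
theorem result (N : ℕ) {d : ℕ} (hd : 2 ≤ d) :
    ∃ Ψ : MvPolynomial (TopCoeff N d) ℤ, Ψ ≠ 0 ∧
      ∀ (K : Type) [Field K] [NumberField K] [Algebra K ℂ] (Φ : Fin N → MvPolynomial (Fin N) K),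
        (∀ i, (Φ i).totalDegree ≤ d) →
        (aeval (fun t : TopCoeff N d => coeff t.2.1 (Φ t.1)) Ψ ≠ 0 →
          RegularAtInfinity d Φ ∧ exceptional d Φ = ∅) ∧
        (RegularAtInfinity d Φ →
          (exceptional d Φ).Finite ∧
            ∀ (α : Fin N → K) (I : Ideal (MvPolynomial (Fin N) ℂ)), DimLEOne I →
              (∀ p ∈ exceptional d Φ, ¬ IsPointAtInfinity I p) →
              IsFiniteUnion (returnSet Φ α I)) := by
  obtain ⟨Ψ, hΨ, h⟩ := Pool.Agent.Helper61.DG.generic N hd
  refine ⟨Ψ, hΨ, fun K _ _ _ Φ hdeg => ⟨fun hΦ => ?_, fun hΦ => off hd Φ hΦ⟩⟩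
  obtain ⟨hreg, hper⟩ := h K Φ hdeg hΦ
  refine ⟨⟨hreg.1, fun z hz => hreg.2 z (funext hz)⟩, ?_⟩
  rw [Set.eq_empty_iff_forall_notMem]
  rintro p ⟨L, iF, iA, j, z, h, -, -, -, ⟨k, hk, hk'⟩, hall⟩
  have hz : z ≠ 0 := by
    rintro rfl
    apply h
    funext i
    exact map_zero j
  obtain ⟨k1, hk1, hk1', hlt⟩ := hper L j z hz ⟨k, hk, hk'⟩
  exact absurd (hall k1 ⟨hk1, hk1'⟩) (not_le.2 hlt)

end Pool.Agent.Results.MP_295d38_ag.CurvesOffFiniteSet
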